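import Pool.Agent.Zk77.Sko.Near
import Pool.Agent.N671.DA.Tup

/-!
# The Skolem problem for ALL inputs which are good approximation vectors of systems of linear forms

Let `m ≥ 0`, `β ∈ ℝ^m` and `τ > 0`. For real matrices `α` with `2 d` rows and `m` columns consider the inputs
`q = (c, a) ∈ ℤ^(2 d)` of order `d` (coefficients, initial values) with `‖(q α)_j - β_j‖ ≤ K |q| ^ (-τ)` for `j = 1, …, m`
(`‖x‖` the distance to the nearest integer, `|q|` the maximum norm). For `β = 0`, `K = 1`, `τ = 2 d / m` they include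
all the best approximation vectors of the system of the linear forms `q α`, by the theorem of Minkowski.

There is one total errorless algorithm `F` such that for all `d`, all `A > 1` there is `δ > 0` with: for all `α` outside a
set of Hausdorff dimension at most `(2 d - 1) m + (m + 2 d - δ) / (1 + τ)` (less than `2 d m` for `τ = 2 d / m`), so
for almost all `α`, ALL large inputs with these inequalities have a prime `p ≤ (log |q|) ^ A` modulo which the
sequence has period `(p - 1) / 2` and no zero term, and the algorithm recognises that there is no zero. The same for the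
initial values of a fixed recurrence with squarefree characteristic polynomial (`d` rows, a certain `A`).

From the two power-saving theorems of the starting files (`SmoothedAnalysis`, `PolylogCertificates`), a dyadic
decomposition of the heights (`Pool.Agent.Zk77.Sko.count_hgt`) and the tool `Pool.Agent.N671.DA.approx_vectors`.
-/

set_option autoImplicit false

namespace Pool.Agent.Results.MP_8d13b5_lc.ApproximationVectors

open Pool.Agent.H884R2.Sko Pool.Agent.H692R2.USS Pool.Agent.H684R3.Smo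

/-- the height of an integral vector: its largest absolute value -/
def height {ι : Type} [Fintype ι] (z : ι → ℤ) : ℕ := Finset.univ.sup (fun i => (z i).natAbs)

/-- there is a prime `p ≤ Y` modulo which the sequence with coefficients `c` and initial values `a` has period
`(p - 1) / 2` and no zero term -/
def Certified {d : ℕ} (Y : ℝ) (c a : Fin d → ℤ) : Prop :=
  ∃ p : ℕ, p.Prime ∧ (p : ℝ) ≤ Y ∧ ∀ u, IsSeq c a u →
    (∀ n, (p : ℤ) ∣ u (n + (p - 1) / 2) - u n) ∧ ∀ n, ¬ (p : ℤ) ∣ u n

/-- `‖∑_i q_i α_(i,j) - β_j‖ ≤ r` for all `j`, `‖x‖` the distance of `x` to the nearest integer -/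
def Approximates {k m : ℕ} (α : Fin k × Fin m → ℝ) (β : Fin m → ℝ) (q : Fin k → ℤ) (r : ℝ) : Prop :=
  ∀ j, ∃ p : ℤ, |∑ i, (q i : ℝ) * α (i, j) - β j - p| ≤ r

/-- the coefficients of the input `q` -/
def coeffs {d : ℕ} (q : Fin (d + d) → ℤ) : Fin d → ℤ := fun i => q (Fin.castAdd d i)

/-- the initial values of the input `q` -/
def inits {d : ℕ} (q : Fin (d + d) → ℤ) : Fin d → ℤ := fun i => q (Fin.natAdd d i)

lemma hgt_equiv {ι κ : Type} [Fintype ι] [Fintype κ] (e : ι ≃ κ) (z : κ → ℤ) :
    Pool.Agent.Zk77.Sko.hgt (fun i => z (e i)) = Pool.Agent.Zk77.Sko.hgt z := by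
  apply le_antisymm
  · rw [Pool.Agent.Zk77.Sko.hgt_le]
    intro i
    exact (Pool.Agent.Zk77.Sko.hgt_le z _).1 le_rfl (e i)
  · rw [Pool.Agent.Zk77.Sko.hgt_le]
    intro j
    have h := (Pool.Agent.Zk77.Sko.hgt_le (fun i => z (e i)) _).1 le_rfl (e.symm j)
    simpa using h

theorem result :
    -- one total computable function, which never errs
    (∃ F : ℕ × (List (ℕ × ℕ) × List (ℕ × ℕ)) → Bool, Computable F ∧
      (∀ (y : ℕ) (p : List (ℕ × ℕ) × List (ℕ × ℕ)) (u : ℕ → ℤ), IsLRS p u → F (y, p) = true → ∀ n, u n ≠ 0) ∧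
      -- coefficients and initial values
      (∀ (d : ℕ) (hd : 1 ≤ d) (A : ℝ), 1 < A → ∃ δ : ℝ, 0 < δ ∧ ∀ (m : ℕ) (β : Fin m → ℝ) (τ : ℝ), 0 < τ →
        ∃ E : Set (Fin (d + d) × Fin m → ℝ),
          dimH E ≤ ENNReal.ofReal ((2 * (d : ℝ) - 1) * m + (m + (2 * d - δ)) / (1 + τ)) ∧
          ∀ α, α ∉ E → ∀ K : ℝ, ∃ Q : ℝ, ∀ q : Fin (d + d) → ℤ, Q ≤ ‖q‖ → Approximates α β q (K * ‖q‖ ^ (-τ)) →
            Certified (Real.log (height q) ^ A) (coeffs q) (inits q) ∧
            (coeffs q ⟨d - 1, by omega⟩ ≠ 0 →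
              F (⌊Real.log (height q) ^ A⌋₊, (code (coeffs q), code (inits q))) = true))) ∧
    -- a fixed recurrence with squarefree characteristic polynomial
    (∀ (d : ℕ) (hd : 1 ≤ d) (c : Fin d → ℤ), c ⟨d - 1, by omega⟩ ≠ 0 →
      Squarefree ((charPoly c).map (Int.castRingHom ℚ)) → ∃ A δ : ℝ, 0 < A ∧ 0 < δ ∧
        ∀ (m : ℕ) (β : Fin m → ℝ) (τ : ℝ), 0 < τ →
        ∃ E : Set (Fin d × Fin m → ℝ), dimH E ≤ ENNReal.ofReal (((d : ℝ) - 1) * m + (m + (d - δ)) / (1 + τ)) ∧
          ∀ α, α ∉ E → ∀ K : ℝ, ∃ Q : ℝ, ∀ a : Fin d → ℤ, Q ≤ ‖a‖ → Approximates α β a (K * ‖a‖ ^ (-τ)) →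
            Certified (Real.log (height a) ^ A) c a) := by
  refine ⟨?_, ?_⟩
  · obtain ⟨F, hF, hFe⟩ := t10
    refine ⟨F, hF, fun y p u hu ht n hn => ?_, fun d hd A hA => ?_⟩
    · obtain ⟨q, _, _, hq⟩ := (hFe y p u hu).1 ht
      apply hq n
      rw [hn]
      exact dvd_zero _
    · obtain ⟨δ, hδ, hδ1, C, hC⟩ := Pool.Agent.Zk77.Sko.count_all d hd A hA
      refine ⟨δ, hδ, fun m β τ hτ => ?_⟩
      have hd1 : (1 : ℝ) ≤ d := by exact_mod_cast hd
      have hthin : Pool.Agent.N671.DA.Thin {q : Fin (d + d) → ℤ |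
          ¬ Certified (Real.log (height q) ^ A) (coeffs q) (inits q)} (2 * (d : ℝ) - δ) := by
        refine Pool.Agent.N671.DA.thin_of_nat (by linarith) (C₀ := C) fun T hT => le_trans ?_ (hC T hT)
        rw [Nat.cast_le]
        refine Set.ncard_le_ncard_of_injOn
          (fun (q : Fin (d + d) → ℤ) (i : Fin d ⊕ Fin d) => q (finSumFinEquiv i)) ?_ ?_
          (Pool.Agent.Zk77.Sko.fin_hgt T _)
        · rintro q ⟨h1, h2⟩
          refine ⟨fun i => h1 _, fun h3 => h2 ?_⟩
          have e := hgt_equiv (finSumFinEquiv (m := d) (n := d)) q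
          rw [e] at h3
          exact h3
        · intro q _ q' _ hqq
          funext j
          have := congrFun hqq (finSumFinEquiv.symm j)
          simpa using this
      obtain ⟨E, hE, h⟩ := Pool.Agent.N671.DA.approx_vectors (k := d + d) (by omega) _ (by linarith) hthin β hτ
      refine ⟨E, ?_, fun α hα K => ?_⟩
      · refine hE.trans (le_of_eq ?_)
        congr 2
        push_cast
        ring
      · obtain ⟨Q, hQ⟩ := h α hα K
        refine ⟨Q, fun q hq hap => ?_⟩
        have hcert : Certified (Real.log (height q) ^ A) (coeffs q) (inits q) := by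
          by_contra hcon
          exact hQ q hq hap hcon
        refine ⟨hcert, fun hc => ?_⟩
        obtain ⟨p, hp, hpA, hpu⟩ := hcert
        obtain ⟨u, hu⟩ := exists_isSeq (coeffs q) (inits q)
        rw [hFe _ _ u (isLRS_code hd _ _ hc hu)]
        exact ⟨p, Nat.le_floor hpA, hp, (hpu u hu).2⟩
  · intro d hd c hc hsq
    obtain ⟨A, δ, hA, hδ, hδ1, C, hC⟩ := Pool.Agent.Zk77.Sko.count_init d hd c hc hsq
    refine ⟨A, δ, hA, hδ, fun m β τ hτ => ?_⟩
    have hd1 : (1 : ℝ) ≤ d := by exact_mod_cast hd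
    have hthin : Pool.Agent.N671.DA.Thin {a : Fin d → ℤ | ¬ Certified (Real.log (height a) ^ A) c a}
        ((d : ℝ) - δ) :=
      Pool.Agent.N671.DA.thin_of_nat (by linarith) (C₀ := C) fun T hT => hC T hT
    obtain ⟨E, hE, h⟩ := Pool.Agent.N671.DA.approx_vectors hd _ (by linarith) hthin β hτ
    refine ⟨E, hE, fun α hα K => ?_⟩
    obtain ⟨Q, hQ⟩ := h α hα K
    refine ⟨Q, fun a ha hap => ?_⟩
    by_contra hcon
    exact hQ a ha hap hcon

end Pool.Agent.Results.MP_8d13b5_lc.ApproximationVectors
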