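import Pool.Agent.Zk77.Sko.Fam2
import Pool.Agent.N384.VF.Ex

/-!
# The Skolem problem for all equidistributed families of inputs

There is one total errorless algorithm `F` such that for every order `d` and every `A > 1` there is `δ > 0` with the
following property. Let `(z_i)`, `i ∈ s`, be ANY finite family of inputs of order `d` (coefficients, initial values; of
arbitrary size, with repetitions), and let `Z ≥ Z₀` be such that for all moduli `q ≤ Z` each residue class modulo `q`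
contains `|s| / q ^ (2 d)` members up to an error of at most `|s| / Z`. Then for all but `|s| Z ^ (-δ)` members there is a
prime `p ≤ (log Z) ^ A` modulo which the sequence has period `(p - 1) / 2` and no zero term, and the algorithm
recognises that there is no zero. The same for the initial values of a fixed recurrence with squarefree characteristic
polynomial (a certain `A`).

The condition holds, with a level `Z` of the order of a power of `Q`, for the families of vectors `c₀ + y_i`, `c₀` an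
arbitrary integral vector and `y_i` vectors of least residues modulo any `Q` with small Fourier coefficients. Examples:
products of one-dimensional families; quotients of small numbers by small primes, cosets of all multiplicative
subgroups of order `≥ 5 p ^ (3/8) K ^ 3` (pseudorandom inputs), the residues `a b + g(a) + k(b)`; and curves
`(f_j(n))_j`, `n < x`, with polynomials of different degrees `≥ e`, which have only about `p ^ (1 / e)` members.

Proof: the second moment for products over blocks of primes of the starting files (`SmoothedAnalysis`), for families in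
the place of boxes (`Pool.Agent.Zk77.Sko.fam3`); completion (`Pool.Agent.N384.VF.count_le`, starting files).
-/

set_option autoImplicit false

namespace Pool.Agent.Results.MP_8d13b5_lc.EquidistributedFamilies

open Pool.Agent.H884R2.Sko Pool.Agent.H692R2.USS Pool.Agent.H684R3.Smo

/-- there is a prime `p ≤ Y` modulo which the sequence with coefficients `c` and initial values `a` has period
`(p - 1) / 2` and no zero term -/
def Certified {d : ℕ} (Y : ℝ) (c a : Fin d → ℤ) : Prop :=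
  ∃ p : ℕ, p.Prime ∧ (p : ℝ) ≤ Y ∧ ∀ u, IsSeq c a u →
    (∀ n, (p : ℤ) ∣ u (n + (p - 1) / 2) - u n) ∧ ∀ n, ¬ (p : ℤ) ∣ u n

open Classical in
/-- for all `q ≤ Z` each residue class modulo `q` contains `|s| / q ^ k` members of the family, `k` the number of the
coordinates, up to an error of at most `|s| / Z` -/
def Equidistributed {ι τ : Type} [Fintype ι] (Z : ℝ) (s : Finset τ) (z : τ → ι → ℤ) : Prop :=
  ∀ q : ℕ, 1 ≤ q → (q : ℝ) ≤ Z → ∀ r : ι → ZMod q,
    |((s.filter fun i => ∀ j, (z i j : ZMod q) = r j).card : ℝ) - s.card / (q : ℝ) ^ Fintype.card ι| ≤ s.card / Z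

/-- The Fourier coefficients of the vectors of residues `y i`, `i ∈ s`, modulo `q` at the nonzero frequencies are at most
`η` times the number of the vectors: `|∑ i ∈ s, e(h·y_i / q)| ≤ η |s|` for all vectors `h ≠ 0` modulo `q`. -/
def Flat {τ ι : Type} [Fintype ι] (q : ℕ) [NeZero q] (η : ℝ) (s : Finset τ) (y : τ → ι → ZMod q) : Prop :=
  ∀ h : ι → ZMod q, h ≠ 0 → ‖∑ i ∈ s, (ZMod.stdAddChar (∑ j, h j * y i j) : ℂ)‖ ≤ η * s.card

/-- The same for residues (vectors with one coordinate). -/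
def Flat1 {τ : Type} (q : ℕ) [NeZero q] (η : ℝ) (s : Finset τ) (y : τ → ZMod q) : Prop :=
  ∀ h : ZMod q, h ≠ 0 → ‖∑ i ∈ s, (ZMod.stdAddChar (h * y i) : ℂ)‖ ≤ η * s.card

/-- small Fourier coefficients give equidistribution -/
theorem equi_of_flat {ι τ : Type} [Fintype ι] (Q : ℕ) [NeZero Q] (s : Finset τ) (y : τ → ι → ZMod Q) (Z : ℝ)
    (hZ : 1 ≤ Z) (hZQ : Z ^ 2 * 2 ≤ Q)
    (hf : Flat Q (1 / (2 * Z * (42 + 3 * Real.log Q) ^ Fintype.card ι)) s y) (c₀ : ι → ℤ) :
    Equidistributed Z s (fun i j => c₀ j + ((y i j).val : ℕ)) := by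
  classical
  intro q hq hqZ r
  have hQ0 : (0 : ℝ) < Q := by nlinarith
  have hZ0 : 0 < Z := by linarith
  have hlog : 0 ≤ Real.log (Q : ℝ) := Real.log_natCast_nonneg Q
  have hL : (0 : ℝ) < (42 + 3 * Real.log Q) ^ Fintype.card ι := by positivity
  rcases s.eq_empty_or_nonempty with hs | hs
  · rw [hs]
    simp
  have hs0 : (0 : ℝ) < s.card := by exact_mod_cast hs.card_pos
  have h1 := Pool.Agent.N384.VF.count_le Q (1 / (2 * Z * (42 + 3 * Real.log Q) ^ Fintype.card ι)) (by positivity) s hs y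
    hf c₀ q hq r
  have e1 : (s.filter fun i => Pool.Agent.Y722.HS.red q (fun j => c₀ j + ((y i j).val : ℕ)) = r) =
      s.filter fun i => ∀ j, ((c₀ j + ((y i j).val : ℕ) : ℤ) : ZMod q) = r j := by
    apply Finset.filter_congr
    intro i _
    exact funext_iff
  rw [e1] at h1
  have h2 : (q : ℝ) / Q + 1 / (2 * Z * (42 + 3 * Real.log Q) ^ Fintype.card ι) *
      (42 + 3 * Real.log Q) ^ Fintype.card ι ≤ 1 / Z := by
    have g1 : 1 / (2 * Z * (42 + 3 * Real.log Q) ^ Fintype.card ι) * (42 + 3 * Real.log Q) ^ Fintype.card ι =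
        1 / (2 * Z) := by
      field_simp
    have g2 : (q : ℝ) / Q ≤ 1 / (2 * Z) := by
      rw [div_le_div_iff₀ hQ0 (by positivity)]
      nlinarith
    have g3 : 1 / (2 * Z) + 1 / (2 * Z) = 1 / Z := by field_simp; norm_num
    rw [g1]
    linarith
  have h3 := mul_le_mul_of_nonneg_left (h1.trans h2) hs0.le
  have e2 : (s.card : ℝ) * |((s.filter fun i => ∀ j, ((c₀ j + ((y i j).val : ℕ) : ℤ) : ZMod q) = r j).card : ℝ) / s.card -
      1 / (q : ℝ) ^ Fintype.card ι| =
      |((s.filter fun i => ∀ j, ((c₀ j + ((y i j).val : ℕ) : ℤ) : ZMod q) = r j).card : ℝ) -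
        s.card / (q : ℝ) ^ Fintype.card ι| := by
    rw [← abs_of_pos hs0, ← abs_mul, abs_of_pos hs0, mul_sub, mul_div_cancel₀ _ hs0.ne']
    congr 2
    ring
  rw [e2] at h3
  refine h3.trans (le_of_eq ?_)
  ring

open Classical in
theorem result :
    -- one total computable function, which never errs
    (∃ F : ℕ × (List (ℕ × ℕ) × List (ℕ × ℕ)) → Bool, Computable F ∧
      (∀ (y : ℕ) (p : List (ℕ × ℕ) × List (ℕ × ℕ)) (u : ℕ → ℤ), IsLRS p u → F (y, p) = true → ∀ n, u n ≠ 0) ∧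
      -- coefficients and initial values
      (∀ (d : ℕ) (hd : 1 ≤ d) (A : ℝ), 1 < A → ∃ δ : ℝ, 0 < δ ∧ ∃ Z₀ : ℝ, ∀ Z : ℝ, Z₀ ≤ Z →
        ∀ (τ : Type) (s : Finset τ) (z : τ → Fin d ⊕ Fin d → ℤ), Equidistributed Z s z →
        ((s.filter fun i => ¬ (Certified (Real.log Z ^ A) (fun j => z i (Sum.inl j)) (fun j => z i (Sum.inr j)) ∧
          (z i (Sum.inl ⟨d - 1, by omega⟩) ≠ 0 → F (⌊Real.log Z ^ A⌋₊,
            (code fun j => z i (Sum.inl j), code fun j => z i (Sum.inr j))) = true))).card : ℝ) ≤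
          s.card * Z ^ (-δ))) ∧
    -- a fixed recurrence with squarefree characteristic polynomial
    (∀ (d : ℕ) (hd : 1 ≤ d) (c : Fin d → ℤ), c ⟨d - 1, by omega⟩ ≠ 0 →
      Squarefree ((charPoly c).map (Int.castRingHom ℚ)) → ∃ A δ : ℝ, 0 < A ∧ 0 < δ ∧ ∃ Z₀ : ℝ, ∀ Z : ℝ, Z₀ ≤ Z →
        ∀ (τ : Type) (s : Finset τ) (z : τ → Fin d → ℤ), Equidistributed Z s z →
        ((s.filter fun i => ¬ Certified (Real.log Z ^ A) c (z i)).card : ℝ) ≤ s.card * Z ^ (-δ)) ∧
    -- vectors of residues with small Fourier coefficients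
    (∀ (ι τ : Type) [Fintype ι] (Q : ℕ) [NeZero Q] (s : Finset τ) (y : τ → ι → ZMod Q) (Z : ℝ), 1 ≤ Z →
      Z ^ 2 * 2 ≤ Q → Flat Q (1 / (2 * Z * (42 + 3 * Real.log Q) ^ Fintype.card ι)) s y → ∀ c₀ : ι → ℤ,
      Equidistributed Z s (fun i j => c₀ j + ((y i j).val : ℕ))) ∧
    -- examples
    (∀ (ι : Type) [Fintype ι] [DecidableEq ι] (q : ℕ) [NeZero q] (η : ℝ) (τ : Type) (s : ι → Finset τ) (y : ι → τ → ZMod q),
      (∀ j, Flat1 q η (s j) (y j)) → Flat q η (Fintype.piFinset s) (fun g j => y j (g j))) ∧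
    (∃ P₀ : ℕ, ∀ p : ℕ, P₀ ≤ p → ∀ [Fact p.Prime] (K : ℝ), 1 ≤ K →
      (∀ R S : ℕ, K * Real.log p ^ 4 ≤ R → R < p → R ^ 2 ≤ S →
        Flat1 p (1 / K) (((Finset.Icc 1 R).filter Nat.Prime) ×ˢ Finset.range S)
          (fun z => ((z.2 : ℕ) : ZMod p) * ((z.1 : ℕ) : ZMod p)⁻¹)) ∧
      (∀ (H : Subgroup (ZMod p)ˣ) (s : Finset (ZMod p)ˣ), (∀ u, u ∈ s ↔ u ∈ H) →
        5 * (p : ℝ) ^ (3 / 8 : ℝ) * K ^ 3 ≤ s.card → ∀ x : ZMod p, x ≠ 0 → Flat1 p (1 / K) s (fun u => x * (u : ZMod p))) ∧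
      (∀ (A B : Finset (ZMod p)) (g k : ZMod p → ZMod p), (p : ℝ) * K ^ 2 ≤ A.card * B.card →
        Flat1 p (1 / K) (A ×ˢ B) (fun z => z.1 * z.2 + g z.1 + k z.2))) ∧
    (∀ d D : ℕ, 1 ≤ d → ∃ C : ℕ, ∀ (ι : Type) [Fintype ι] (p : ℕ) [Fact p.Prime] (f : ι → Polynomial ℤ),
      (∀ j, d ≤ (f j).natDegree ∧ (f j).natDegree ≤ D ∧ ¬ (p : ℤ) ∣ (f j).leadingCoeff) →
      Function.Injective (fun j => (f j).natDegree) → ∀ K : ℝ, 1 ≤ K → C * K ^ C ≤ p → ∀ x : ℕ,
      C * K ^ C * p ≤ (x : ℝ) ^ d → Flat p (1 / K) (Finset.range x) (fun n j => (((f j).eval (n : ℤ) : ℤ) : ZMod p))) := by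
  refine ⟨?_, ?_, fun ι τ _ Q _ s y Z hZ hZQ hf c₀ => equi_of_flat Q s y Z hZ hZQ hf c₀,
    fun ι _ _ q _ η τ s y h => Pool.Agent.N384.VF.flat_pi q η s y h, ?_, fun d D hd => Pool.Agent.N384.VF.flat_poly d D hd⟩
  · obtain ⟨F, hF, hFe⟩ := t10
    refine ⟨F, hF, fun y p u hu ht n hn => ?_, fun d hd A hA => ?_⟩
    · obtain ⟨q, _, _, hq⟩ := (hFe y p u hu).1 ht
      apply hq n
      rw [hn]
      exact dvd_zero _
    · obtain ⟨δ, hδ, Z₀, h⟩ := Pool.Agent.Zk77.Sko.fam_inputs d hd A hA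
      refine ⟨δ, hδ, Z₀, fun Z hZ τ s z hE => le_trans ?_ (h Z hZ τ s z hE)⟩
      rw [Nat.cast_le]
      apply Finset.card_le_card
      intro i hi
      rw [Finset.mem_filter] at hi ⊢
      refine ⟨hi.1, fun hcert => hi.2 ⟨hcert, fun hc => ?_⟩⟩
      obtain ⟨p, hp, hpA, hpu⟩ := hcert
      obtain ⟨u, hu⟩ := exists_isSeq (fun j => z i (Sum.inl j)) (fun j => z i (Sum.inr j))
      rw [hFe _ _ u (isLRS_code hd _ _ hc hu)]
      exact ⟨p, Nat.le_floor hpA, hp, (hpu u hu).2⟩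
  · intro d hd c hc hsq
    obtain ⟨A, δ, hA, hδ, Z₀, h⟩ := Pool.Agent.Zk77.Sko.fam_inits d hd c hc hsq
    exact ⟨A, δ, hA, hδ, Z₀, fun Z hZ τ s z hE => h Z hZ τ s z hE⟩
  · obtain ⟨P₀, h0⟩ := Pool.Agent.N384.MQ.flatK_quot
    exact ⟨P₀, fun p hp _ K hK => ⟨fun R S => h0 p hp K hK R S,
      fun H s hs hc x hx => Pool.Agent.N384.MQ.flatK_coset p H s hs K hK hc x hx,
      fun A B g k hAB => Pool.Agent.N384.MQ.flatK_prod p A B g k K hK hAB⟩⟩

end Pool.Agent.Results.MP_8d13b5_lc.EquidistributedFamilies
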