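import Pool.Agent.N18.KM.Base
import Pool.Agent.N24.KM.All
import Pool.Agent.Results.MP_8d13b5_lc.RandomOrbits

/-!
# The Skolem Problem for recurrences whose data are arbitrary sequences, for almost all multipliers

Consider linear recurrences of order `d` whose `d` coefficients, and whose initial values at the places
in a set `J`, are different coordinates of an integral vector `c`; the other initial values are arbitrary
integers with `|b_i| ≤ D`. (For `J = ∅` the coefficients are coordinates of `c` and ALL small initial
values are considered at once, for `J = {0, ..., d - 1}` the whole input is given by `c`.) The Skolem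
Problem is solved for `c` (`Solved`, starting result `RandomOrbits`) if for all these sequences
simultaneously: the sequence has a zero term if and only if one of its `d` initial values is zero; one
errorless algorithm halts on every input which codes the sequence; and if all initial values are nonzero
there is a prime `p` which divides no term, modulo which the sequence has period `p - 1`, and the total
function `f`, which looks only at the primes up to `p`, recognises the sequence.

**Theorem.** A sequence `c_0, c_1, …` of vectors in `ℤ ^ ι` (`ι` a finite set) is called good (`Good`) if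
there is ONE set `E` of indices of natural density zero, such that for ALL orders `d`, ALL sets `J` of
places, ALL ways `g` to choose `d + |J|` different coordinates, and ALL bounds `D` the Skolem Problem is
solved for the chosen coordinates of `c_n`, for all but finitely many `n ∉ E`.

1. Let `f_{i,0}, f_{i,1}, …` (`i ∈ ι`) be functions which satisfy the hypothesis of Koksma's theorem on
   `[a_i, b_i]` (`Koksma`). Then `c_n = (⌊f_{i,n}(α_i)⌋)_i` is good for almost all `α` with
   `a_i ≤ α_i ≤ b_i`.
2. Let `a_{i,0}, a_{i,1}, …` (`i ∈ ι`) be ANY sequences of real numbers with mutual distances at least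
   `δ > 0`, for example any sequences of different integers (`n!`, `2 ^ n`, any enumeration of any
   infinite set of integers or of primes). Then `c_n = (⌊a_{i,n} α_i⌋)_i` is good for almost all `α`.
3. Let `k_0, k_1, …` be ANY sequence of different natural numbers, and `ξ_i ≠ 0`. Then
   `c_n = (⌊ξ_i α_i ^ k_n⌋)_i` is good for almost all `α` with all `α_i > 1`.

So for almost all `α` for instance all sequences `u_(m+d) = ⌊n! α_1⌋ u_(m+d-1) + … + ⌊n! α_d⌋ u_m` with
small initial values are treated, for 100% of the `n`; there are no conditions on the order or on the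
number of dominant roots. The sequences can grow arbitrarily fast, so that the number of the inputs
considered in a box tends to infinity with the box as slowly as one likes.

Proof. The exceptional vectors form a pronull set: their closure in the product of the `ℤ_p ^ (d + |J|)`
over all primes `p` which do not divide `M` has Haar measure zero, for all `M` (starting result
`RandomOrbits`, helper475). By the theorem of Koksma in several variables almost all metric sequences are
in such a set only for indices of density zero (helper24, helper18 and the workers of the project KM).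
There are countably many `(d, J, g, D)`, and a diagonal argument gives one set `E`.
-/

set_option autoImplicit false

namespace Pool.Agent.Results.MP_8d13b5_lc.MetricSequences

open MeasureTheory Filter Topology
open Pool.Agent.H684R3.Smo Pool.Agent.H884R2.Sko Pool.Agent.H692R2.USS
open Pool.Agent.N24.RW (ProNull)
open Pool.Agent.Results.MP_8d13b5_lc.RandomOrbits (Solved)

/-- The hypothesis of Koksma's theorem: the functions `f n` are twice continuously differentiable, the
derivatives of different ones differ by at least `δ > 0` on `[a, b]`, and the second derivative of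
`f m - f n` does not change its sign there. -/
def Koksma (a b : ℝ) (f : ℕ → ℝ → ℝ) : Prop :=
  (∀ n, ContDiff ℝ 2 (f n)) ∧ ∃ δ : ℝ, 0 < δ ∧ ∀ m n : ℕ, m ≠ n →
    (∀ x ∈ Set.Icc a b, δ ≤ |deriv (f m) x - deriv (f n) x|) ∧
    ((∀ x ∈ Set.Icc a b, deriv (deriv (f n)) x ≤ deriv (deriv (f m)) x) ∨
      ∀ x ∈ Set.Icc a b, deriv (deriv (f m)) x ≤ deriv (deriv (f n)) x)

/-- `E` has natural density zero. -/
def DensityZero (E : Set ℕ) : Prop :=
  Tendsto (fun N : ℕ => (({x : ℕ | x < N ∧ x ∈ E}.ncard : ℕ) : ℝ) / (N : ℝ)) atTop (𝓝 0)

/-- For all orders `d`, all sets `J` of places, all ways `g` to choose `d + |J|` different coordinates and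
all bounds `D` the Skolem Problem is solved for the chosen coordinates of the vector `c n` (as the
coefficients and the initial values at the places in `J`) and all other initial values up to `D`, apart
from the `n` in one set of density zero and finitely many more. -/
def Good (A : List (ℕ × ℕ) × List (ℕ × ℕ) →. Bool)
    (f : ℕ × (List (ℕ × ℕ) × List (ℕ × ℕ)) → Bool) {ι : Type} (c : ℕ → ι → ℤ) : Prop :=
  ∃ E : Set ℕ, DensityZero E ∧ ∀ (d : ℕ) (J : Finset (Fin d)), 1 ≤ d →
    ∀ g : Fin d ⊕ J → ι, Function.Injective g → ∀ D : ℕ,
      {n : ℕ | n ∉ E ∧ ¬ Solved A f d J D (fun i => c n (g i))}.Finite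

/-- the data -/
def Dat (ι : Type) : Type :=
  Σ d : {d : ℕ // 1 ≤ d}, Σ J : Finset (Fin d.1), {g : Fin d.1 ⊕ J → ι // Function.Injective g} × ℕ

instance (ι : Type) [Finite ι] : Countable (Dat ι) := by
  unfold Dat
  infer_instance

theorem result :
    -- one algorithm for all integer linear recurrence sequences, which never errs
    ∃ A : List (ℕ × ℕ) × List (ℕ × ℕ) →. Bool, Partrec A ∧
      (∀ z v, IsLRS z v → ∀ b ∈ A z, (b = true ↔ ∃ n, v n = 0)) ∧
      -- one total computable function, which reads all linear recurrence sequences and never errs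
      ∃ f : ℕ × (List (ℕ × ℕ) × List (ℕ × ℕ)) → Bool, Computable f ∧
        (∀ (y : ℕ) (z : List (ℕ × ℕ) × List (ℕ × ℕ)) (v : ℕ → ℤ), IsLRS z v → f (y, z) = true →
          ∀ n, v n ≠ 0) ∧
        ∀ (ι : Type) [Fintype ι],
          (∀ (a b : ι → ℝ) (F : ι → ℕ → ℝ → ℝ), (∀ i, a i < b i) →
            (∀ i, Koksma (a i) (b i) (F i)) →
            ∀ᵐ α : ι → ℝ, (∀ i, α i ∈ Set.Icc (a i) (b i)) → Good A f fun n i => ⌊F i n (α i)⌋) ∧
          (∀ (a : ι → ℕ → ℝ) (δ : ℝ), 0 < δ → (∀ i m n, m ≠ n → δ ≤ |a i m - a i n|) →
            ∀ᵐ α : ι → ℝ, Good A f fun n i => ⌊a i n * α i⌋) ∧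
          (∀ (k : ℕ → ℕ) (ξ : ι → ℝ), Function.Injective k → (∀ i, ξ i ≠ 0) →
            ∀ᵐ α : ι → ℝ, (∀ i, 1 < α i) → Good A f fun n i => ⌊ξ i * α i ^ k n⌋) := by
  classical
  obtain ⟨A, hA, hA2, f, hf, hf2, hall⟩ := RandomOrbits.result
  refine ⟨A, hA, hA2, f, hf, hf2, fun ι _ => ?_⟩
  refine Pool.Agent.N18.KM.parts (ι := ι) (κ := Dat ι) Pool.Agent.N24.KM.main
    (fun x => {c : ι → ℤ | (fun i => c (x.2.2.1.1 i)) ∈
      {y : Fin x.1.1 ⊕ x.2.1 → ℤ | ¬ Solved A f x.1.1 x.2.1 x.2.2.2 y}})
    (fun x => ?_) (Good A f) fun c hc => ?_
  · exact (Pool.Agent.N24.RW.clo (Fin x.1.1 ⊕ x.2.1)).2.2.2.2 ι x.2.2.1.1 x.2.2.1.2 _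
      ((hall x.1.1 x.2.1 x.1.2).1 x.2.2.2)
  · obtain ⟨E, e1, e2⟩ := Pool.Agent.N18.KM.one_set c _ hc
    exact ⟨E, e1, fun d J hd g hg D => e2 ⟨⟨d, hd⟩, J, ⟨g, hg⟩, D⟩⟩

end Pool.Agent.Results.MP_8d13b5_lc.MetricSequences
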