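import Pool.Agent.Zk77.Sko.Near
import Pool.Agent.R482.ST.Vec

/-!
# The Skolem problem for ALL inputs near the vectors of a sequence

Let `f_k`, `k = 0, 1, 2, …`, be positive functions on `(a₀, ∞)`, `a₀ ≥ 0`, such that `f_k(t) / t` is nondecreasing, and such
that the sequence `f_k(t)` has exponent of convergence at most `τ` for each `t > a₀`: for instance `f_k(t) = v_k t`
(dilatations; `τ` the exponent of convergence of `v_k > 0`), `f_k(t) = t ^ (v_k)` for exponents `v_k ≥ 1` (`τ = 0`), or the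
orbits `f_k(t) = g (g (⋯ g (t)))` of any map `g` with `g(t) > t` and `g(t) / t` nondecreasing (`τ = 0`).

There is one total errorless algorithm `F` such that for every order `d` and every `A > 1` there is `δ > 0` with the
following property. For all vectors `v ∈ ℝ^d × ℝ^d` (maximum norm `> a₀`) outside a set of Hausdorff dimension at most
`(2 d - δ + τ) / (1 - θ)`, each constant `K` and all but finitely many `k`: ALL inputs `(c, a)` (coefficients, initial
values) whose entries differ by at most `K r ^ θ` from the entries of `(r / ‖v‖) v`, `r = f_k(‖v‖)`, have a prime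
`p ≤ (log h) ^ A`, `h` the height of the input itself, modulo which the sequence has period `(p - 1) / 2` and no zero term,
and the algorithm with the parameter `(log h) ^ A` recognises that the sequence has no zero. The same holds for the vectors
of initial values of any fixed recurrence with squarefree characteristic polynomial and a certain `A`, outside a set of
dimension at most `(d - δ + τ) / (1 - θ)`.

From the two power-saving theorems of the starting files (`SmoothedAnalysis`, `PolylogCertificates`), a dyadic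
decomposition of the heights (`Pool.Agent.Zk77.Sko.count_hgt`) and the tool `Pool.Agent.R482.ST.vec_windows_nat`.
-/

set_option autoImplicit false

namespace Pool.Agent.Results.MP_8d13b5_lc.NearDilatesAndPowers

open Pool.Agent.H884R2.Sko Pool.Agent.H692R2.USS Pool.Agent.H684R3.Smo

/-- the functions `f n` are positive on `(a, ∞)`, `a ≥ 0`, and `f n x / x` is nondecreasing there -/
def Starshaped (a : ℝ) (f : ℕ → ℝ → ℝ) : Prop :=
  0 ≤ a ∧ ∀ n : ℕ, ∀ x y : ℝ, a < x → x ≤ y → 0 < f n x ∧ f n x / x ≤ f n y / y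

/-- for each `x > a` the exponent of convergence of the sequence `f n x` is at most `τ` -/
def ExpLe (a : ℝ) (f : ℕ → ℝ → ℝ) (τ : ℝ) : Prop :=
  ∀ x : ℝ, a < x → ∀ t : ℝ, τ < t → Summable (fun n : ℕ => (f n x) ^ (-t))

/-- the height of an integral vector: its largest absolute value -/
def height {ι : Type} [Fintype ι] (z : ι → ℤ) : ℕ := Finset.univ.sup (fun i => (z i).natAbs)

/-- there is a prime `p ≤ Y` modulo which the sequence with coefficients `c` and initial values `a` has period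
`(p - 1) / 2` and no zero term -/
def Certified {d : ℕ} (Y : ℝ) (c a : Fin d → ℤ) : Prop :=
  ∃ p : ℕ, p.Prime ∧ (p : ℝ) ≤ Y ∧ ∀ u, IsSeq c a u →
    (∀ n, (p : ℤ) ∣ u (n + (p - 1) / 2) - u n) ∧ ∀ n, ¬ (p : ℤ) ∣ u n

/-- the entries of `z` differ by at most `ρ` from those of `(r / ‖v‖) v`, `r = g ‖v‖` -/
def Near {ι : Type} [Fintype ι] (g : ℝ → ℝ) (ρ : ℝ) (v : ι → ℝ) (z : ι → ℤ) : Prop :=
  ∀ i, |(z i : ℝ) - g ‖v‖ / ‖v‖ * v i| ≤ ρ

theorem result :
    -- one total computable function, which never errs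
    (∃ F : ℕ × (List (ℕ × ℕ) × List (ℕ × ℕ)) → Bool, Computable F ∧
      (∀ (y : ℕ) (p : List (ℕ × ℕ) × List (ℕ × ℕ)) (u : ℕ → ℤ), IsLRS p u → F (y, p) = true → ∀ n, u n ≠ 0) ∧
      -- coefficients and initial values near the vectors of the sequence
      (∀ (d : ℕ) (hd : 1 ≤ d) (A : ℝ), 1 < A → ∃ δ : ℝ, 0 < δ ∧
        ∀ (f : ℕ → ℝ → ℝ) (a₀ τ θ : ℝ), Starshaped a₀ f → 0 ≤ τ → ExpLe a₀ f τ → θ < 1 →
        ∃ E : Set (Fin d ⊕ Fin d → ℝ), dimH E ≤ ENNReal.ofReal ((2 * (d : ℝ) - δ + τ) / (1 - θ)) ∧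
          ∀ v : Fin d ⊕ Fin d → ℝ, a₀ < ‖v‖ → v ∉ E → ∀ K : ℝ, ∃ k₀ : ℕ, ∀ k : ℕ, k₀ ≤ k →
            ∀ z : Fin d ⊕ Fin d → ℤ, Near (f k) (K * (f k ‖v‖) ^ θ) v z →
              Certified (Real.log (height z) ^ A) (fun i => z (Sum.inl i)) (fun i => z (Sum.inr i)) ∧
              (z (Sum.inl ⟨d - 1, by omega⟩) ≠ 0 → F (⌊Real.log (height z) ^ A⌋₊,
                (code fun i => z (Sum.inl i), code fun i => z (Sum.inr i))) = true))) ∧
    -- a fixed recurrence with squarefree characteristic polynomial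
    (∀ (d : ℕ) (hd : 1 ≤ d) (c : Fin d → ℤ), c ⟨d - 1, by omega⟩ ≠ 0 →
      Squarefree ((charPoly c).map (Int.castRingHom ℚ)) → ∃ A δ : ℝ, 0 < A ∧ 0 < δ ∧
        ∀ (f : ℕ → ℝ → ℝ) (a₀ τ θ : ℝ), Starshaped a₀ f → 0 ≤ τ → ExpLe a₀ f τ → θ < 1 →
        ∃ E : Set (Fin d → ℝ), dimH E ≤ ENNReal.ofReal (((d : ℝ) - δ + τ) / (1 - θ)) ∧
          ∀ v : Fin d → ℝ, a₀ < ‖v‖ → v ∉ E → ∀ K : ℝ, ∃ k₀ : ℕ, ∀ k : ℕ, k₀ ≤ k →
            ∀ z : Fin d → ℤ, Near (f k) (K * (f k ‖v‖) ^ θ) v z → Certified (Real.log (height z) ^ A) c z) ∧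
    -- examples of starshaped sequences
    (∀ (v : ℕ → ℝ) (τ : ℝ), (∀ n, 0 < v n) → (∀ t : ℝ, τ < t → Summable (fun n : ℕ => (v n) ^ (-t))) →
      Starshaped 0 (fun n x => v n * x) ∧ ExpLe 0 (fun n x => v n * x) τ) ∧
    (∀ v : ℕ → ℝ, (∀ n, 1 ≤ v n) → (∀ t : ℝ, 0 < t → Summable fun n : ℕ => Real.exp (-(t * v n))) →
      Starshaped 1 (fun n x => x ^ (v n)) ∧ ExpLe 1 (fun n x => x ^ (v n)) 0) ∧
    (∀ (a : ℝ) (g : ℝ → ℝ), 0 ≤ a → (∀ x y : ℝ, a < x → x ≤ y → g x / x ≤ g y / y) → (∀ x : ℝ, a < x → x < g x) →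
      Starshaped a (fun n x => g^[n] x) ∧ ExpLe a (fun n x => g^[n] x) 0) := by
  refine ⟨?_, ?_, Pool.Agent.R482.ST.ex_mul, Pool.Agent.R482.ST.ex_pow, Pool.Agent.R482.ST.ex_orbit⟩
  · obtain ⟨F, hF, hFe⟩ := t10
    refine ⟨F, hF, fun y p u hu ht n hn => ?_, fun d hd A hA => ?_⟩
    · obtain ⟨q, _, _, hq⟩ := (hFe y p u hu).1 ht
      apply hq n
      rw [hn]
      exact dvd_zero _
    · obtain ⟨δ, hδ, hδ1, C, hC⟩ := Pool.Agent.Zk77.Sko.count_all d hd A hA
      refine ⟨δ, hδ, fun f a₀ τ θ hf hτ hv hθ => ?_⟩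
      have hd1 : (1 : ℝ) ≤ d := by exact_mod_cast hd
      obtain ⟨E, hE, h⟩ := Pool.Agent.R482.ST.vec_windows_nat (ι := Fin d ⊕ Fin d)
        (fun z _ => ¬ Certified (Real.log (height z) ^ A) (fun i => z (Sum.inl i)) (fun i => z (Sum.inr i)))
        (fun _ _ _ _ h => h) (s := 2 * (d : ℝ) - δ) (by linarith) ⟨C, hC⟩ f a₀ τ θ hf hτ hv hθ
      refine ⟨E, hE, fun v hv hvE K => ?_⟩
      obtain ⟨k₀, h1⟩ := h v hv hvE K
      refine ⟨k₀, fun k hk z hz => ?_⟩
      have hcert := not_not.1 (h1 k hk z hz)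
      refine ⟨hcert, fun hc => ?_⟩
      obtain ⟨p, hp, hpA, hpu⟩ := hcert
      obtain ⟨u, hu⟩ := exists_isSeq (fun i => z (Sum.inl i)) (fun i => z (Sum.inr i))
      rw [hFe _ _ u (isLRS_code hd _ _ hc hu)]
      exact ⟨p, Nat.le_floor hpA, hp, (hpu u hu).2⟩
  · intro d hd c hc hsq
    obtain ⟨A, δ, hA, hδ, hδ1, C, hC⟩ := Pool.Agent.Zk77.Sko.count_init d hd c hc hsq
    refine ⟨A, δ, hA, hδ, fun f a₀ τ θ hf hτ hv hθ => ?_⟩
    have hd1 : (1 : ℝ) ≤ d := by exact_mod_cast hd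
    obtain ⟨E, hE, h⟩ := Pool.Agent.R482.ST.vec_windows_nat (ι := Fin d)
      (fun z _ => ¬ Certified (Real.log (height z) ^ A) c z)
      (fun _ _ _ _ h => h) (s := (d : ℝ) - δ) (by linarith) ⟨C, hC⟩ f a₀ τ θ hf hτ hv hθ
    refine ⟨E, hE, fun v hv hvE K => ?_⟩
    obtain ⟨k₀, h1⟩ := h v hv hvE K
    exact ⟨k₀, fun k hk z hz => not_not.1 (h1 k hk z hz)⟩

end Pool.Agent.Results.MP_8d13b5_lc.NearDilatesAndPowers
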